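import Mathlib

set_option autoImplicit false

namespace Pool.Agent.Results.MP_02e4ca_lc.NotRepresentable

open Nat.Partrec (Code)
open Nat.Partrec.Code

/-- A tree: a set of finite sequences closed under initial segments. -/
def IsTree (T : Set (List ℕ)) : Prop :=
  ∀ σ τ : List ℕ, σ <+: τ → τ ∈ T → σ ∈ T

/-- The set of infinite paths through `T`. -/
def paths (T : Set (List ℕ)) : Set (ℕ → ℕ) :=
  {x | ∀ n : ℕ, (List.range n).map x ∈ T}

/-- `P` is a computably bounded `Π⁰₁` class. -/
def IsCBClass (P : Set (ℕ → ℕ)) : Prop :=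
  ∃ T : Set (List ℕ), IsTree T ∧ ComputablePred (fun σ : List ℕ => σ ∈ T) ∧
    (∃ g : List ℕ → ℕ, Computable g ∧ ∀ (σ : List ℕ) (i : ℕ), σ ++ [i] ∈ T → i < g σ) ∧
    P = paths T

/-- `R` is a partial ordering of the set `A ⊆ ω` (as a set of pairs from `A`). -/
def IsPartialOrdering (A : Set ℕ) (R : ℕ → ℕ → Prop) : Prop :=
  (∀ a b, R a b → a ∈ A ∧ b ∈ A) ∧ (∀ a ∈ A, R a a) ∧ (∀ a b, R a b → R b a → a = b) ∧
    (∀ a b c, R a b → R b c → R a c)

/-- `(A, R)` is a computable partial ordering. -/
def IsComputablePO (A : Set ℕ) (R : ℕ → ℕ → Prop) : Prop :=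
  IsPartialOrdering A R ∧ ComputablePred (fun a : ℕ => a ∈ A) ∧
    ComputablePred (fun p : ℕ × ℕ => R p.1 p.2)

/-- `L` is a linear ordering of `A`. -/
def IsLinearOrdering (A : Set ℕ) (L : ℕ → ℕ → Prop) : Prop :=
  IsPartialOrdering A L ∧ ∀ a ∈ A, ∀ b ∈ A, L a b ∨ L b a

/-- The solutions of the `n`-dimensionality problem for `(A, R)`: the `n`-tuples of linear
orderings of `A` whose intersection is `R`. -/
def Solutions (A : Set ℕ) (R : ℕ → ℕ → Prop) (n : ℕ) : Set (Fin n → ℕ → ℕ → Prop) :=
  {L | (∀ i, IsLinearOrdering A (L i)) ∧ ∀ a b, R a b ↔ a ∈ A ∧ b ∈ A ∧ ∀ i, L i a b}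

open Classical in
/-- The characteristic function of `{⟨i, ⟨a, b⟩⟩ : a L_i b}`. -/
noncomputable def code {n : ℕ} (L : Fin n → ℕ → ℕ → Prop) : ℕ → ℕ :=
  fun k => if ∃ (i : Fin n) (a b : ℕ), k = Nat.pair i (Nat.pair a b) ∧ L i a b then 1 else 0

/-- Turing equivalence of total functions. -/
def TuringEquiv (x y : ℕ → ℕ) : Prop :=
  TuringEquivalent (fun n => Part.some (x n)) (fun n => Part.some (y n))

/-- `P` represents the class of solutions of the `n`-dimensionality problem for `(A, R)`: there
is a degree-preserving bijection. -/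
def Represents (P : Set (ℕ → ℕ)) (A : Set ℕ) (R : ℕ → ℕ → Prop) (n : ℕ) : Prop :=
  ∃ F : Solutions A R n → P, Function.Bijective F ∧ ∀ s, TuringEquiv (F s).1 (code s.1)

/-! ### The class -/

/-- the tree -/
def T0 : Set (List ℕ) :=
  {σ | (∀ i ∈ List.range σ.length, σ.getD i 0 = 0) ∨
    (σ.getD 0 0 = 1 ∧ ∀ e ∈ List.range (σ.length - 1), σ.getD (e + 1) 0 < 2 ∧
      evaln σ.length (Denumerable.ofNat Code e) e ≠ some (σ.getD (e + 1) 0))}

theorem prefix_getD {σ τ : List ℕ} (h : σ <+: τ) {i : ℕ} (hi : i < σ.length) :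
    σ.getD i 0 = τ.getD i 0 := by
  obtain ⟨ρ, rfl⟩ := h
  rw [List.getD_append _ _ _ _ hi]

theorem isTree_T0 : IsTree T0 := by
  intro σ τ h hτ
  have hlen : σ.length ≤ τ.length := h.length_le
  rcases hτ with h1 | ⟨h1, h2⟩
  · left
    intro i hi
    rw [List.mem_range] at hi
    rw [prefix_getD h hi]
    exact h1 i (by rw [List.mem_range]; omega)
  · by_cases h0 : σ.length = 0
    · left
      intro i hi
      rw [List.mem_range] at hi
      omega
    · right
      refine ⟨?_, ?_⟩
      · rw [prefix_getD h (by omega)]; exact h1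
      · intro e he
        rw [List.mem_range] at he
        have h3 := h2 e (by rw [List.mem_range]; omega)
        rw [prefix_getD h (by omega)]
        refine ⟨h3.1, ?_⟩
        intro h4
        exact h3.2 (evaln_mono hlen h4)

theorem computable_T0 : ComputablePred (fun σ : List ℕ => σ ∈ T0) := by
  apply PrimrecPred.computablePred
  have hg : Primrec₂ (fun (σ : List ℕ) (n : ℕ) => σ.getD n 0) := Primrec.list_getD 0
  have h1 : PrimrecRel (fun (i : ℕ) (σ : List ℕ) => σ.getD i 0 = 0) :=
    Primrec.eq.comp₂ (hg.comp₂ Primrec₂.right Primrec₂.left) (Primrec₂.const 0)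
  have h2 : PrimrecPred (fun σ : List ℕ => ∀ i ∈ List.range σ.length, σ.getD i 0 = 0) :=
    h1.forall_mem_list.comp (Primrec.list_range.comp Primrec.list_length) Primrec.id
  have h3 : PrimrecPred (fun σ : List ℕ => σ.getD 0 0 = 1) :=
    Primrec.eq.comp (hg.comp Primrec.id (Primrec.const 0)) (Primrec.const 1)
  have h4 : PrimrecRel (fun (e : ℕ) (σ : List ℕ) => σ.getD (e + 1) 0 < 2) :=
    Primrec.nat_lt.comp₂ (hg.comp₂ Primrec₂.right (Primrec.succ.comp₂ Primrec₂.left))
      (Primrec₂.const 2)
  have h5 : Primrec₂ (fun (e : ℕ) (σ : List ℕ) =>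
      evaln σ.length (Denumerable.ofNat Code e) e) :=
    primrec_evaln.comp₂ (Primrec₂.pair.comp₂ (Primrec₂.pair.comp₂
      (Primrec.list_length.comp₂ Primrec₂.right) ((Primrec.ofNat Code).comp₂ Primrec₂.left))
        Primrec₂.left)
  have h6 : PrimrecRel (fun (e : ℕ) (σ : List ℕ) =>
      evaln σ.length (Denumerable.ofNat Code e) e ≠ some (σ.getD (e + 1) 0)) :=
    (Primrec.eq.comp₂ h5 (Primrec.option_some.comp₂
      (hg.comp₂ Primrec₂.right (Primrec.succ.comp₂ Primrec₂.left)))).not
  have h7 : PrimrecPred (fun σ : List ℕ => ∀ e ∈ List.range (σ.length - 1),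
      σ.getD (e + 1) 0 < 2 ∧
      evaln σ.length (Denumerable.ofNat Code e) e ≠ some (σ.getD (e + 1) 0)) := by
    have h46 : PrimrecRel (fun (e : ℕ) (σ : List ℕ) => σ.getD (e + 1) 0 < 2 ∧
      evaln σ.length (Denumerable.ofNat Code e) e ≠ some (σ.getD (e + 1) 0)) :=
      PrimrecPred.and h4 h6
    exact h46.forall_mem_list.comp (Primrec.list_range.comp
      (Primrec.nat_sub.comp Primrec.list_length (Primrec.const 1))) Primrec.id
  exact h2.or (h3.and h7)

theorem bounded_T0 (σ : List ℕ) (i : ℕ) (h : σ ++ [i] ∈ T0) : i < 2 := by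
  have e1 : (σ ++ [i]).getD σ.length 0 = i := by
    simp
  rcases h with h1 | ⟨h1, h2⟩
  · have := h1 σ.length (by simp)
    rw [e1] at this
    omega
  · rcases Nat.eq_zero_or_pos σ.length with h0 | h0
    · rw [h0] at e1
      rw [e1] at h1
      omega
    · have := (h2 (σ.length - 1) (by simp; omega)).1
      rw [Nat.sub_add_cancel h0, e1] at this
      exact this

theorem isCBClass_T0 : IsCBClass (paths T0) :=
  ⟨T0, isTree_T0, computable_T0, ⟨fun _ => 2, Computable.const 2, bounded_T0⟩, rfl⟩

theorem getD_map_range (x : ℕ → ℕ) (n i : ℕ) (hi : i < n) :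
    ((List.range n).map x).getD i 0 = x i := by
  rw [List.getD_eq_getElem _ _ (by simpa using hi)]
  simp

theorem mem_paths_iff (x : ℕ → ℕ) : x ∈ paths T0 ↔
    (∀ n, x n = 0) ∨ (x 0 = 1 ∧ ∀ e, x (e + 1) < 2 ∧
      x (e + 1) ∉ eval (Denumerable.ofNat Code e) e) := by
  constructor
  · intro hx
    by_cases h0 : x 0 = 0
    · left
      intro n
      have := hx (n + 1)
      rcases this with h1 | ⟨h1, _⟩
      · have h2 := h1 n (by simp)
        rwa [getD_map_range x (n + 1) n (by omega)] at h2
      · rw [getD_map_range x (n + 1) 0 (by omega)] at h1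
        omega
    · right
      have key : ∀ n, 1 ≤ n → x 0 = 1 ∧ ∀ e ∈ List.range (n - 1), x (e + 1) < 2 ∧
          evaln n (Denumerable.ofNat Code e) e ≠ some (x (e + 1)) := by
        intro n hn
        rcases hx n with h1 | ⟨h1, h2⟩
        · have := h1 0 (by simp; omega)
          rw [getD_map_range x n 0 (by omega)] at this
          exact absurd this h0
        · rw [getD_map_range x n 0 (by omega)] at h1
          refine ⟨h1, ?_⟩
          intro e he
          have h3 := h2 e (by simpa using he)
          have he' : e < n - 1 := by simpa using he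
          rw [getD_map_range x n (e + 1) (by omega)] at h3
          simpa using h3
      refine ⟨(key 1 le_rfl).1, ?_⟩
      intro e
      refine ⟨((key (e + 2) (by omega)).2 e (by simp)).1, ?_⟩
      intro he
      obtain ⟨k, hk⟩ := evaln_complete.mp he
      have h3 := ((key (max k (e + 2)) (by omega)).2 e (by rw [List.mem_range]; omega)).2
      exact h3 (evaln_mono (le_max_left _ _) hk)
  · rintro (h | ⟨h1, h2⟩) n
    · left
      intro i hi
      rw [getD_map_range x n i (by simpa using hi)]
      exact h i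
    · rcases Nat.eq_zero_or_pos n with hn | hn
      · subst hn
        left
        intro i hi
        simp at hi
      · right
        rw [getD_map_range x n 0 hn]
        refine ⟨h1, ?_⟩
        intro e he
        have he' : e < n - 1 := by simpa using he
        rw [getD_map_range x n (e + 1) (by omega)]
        refine ⟨(h2 e).1, ?_⟩
        intro h3
        exact (h2 e).2 (evaln_sound h3)

theorem zero_mem : (fun _ => 0 : ℕ → ℕ) ∈ paths T0 :=
  (mem_paths_iff _).mpr (Or.inl fun _ => rfl)

/-- the only computable member is the zero sequence -/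
theorem computable_mem (x : ℕ → ℕ) (hx : x ∈ paths T0) (hc : Nat.Partrec (fun n => Part.some (x n))) :
    x = fun _ => 0 := by
  rcases (mem_paths_iff x).mp hx with h | ⟨_, h2⟩
  · funext n; exact h n
  · exfalso
    have hs : Nat.Partrec (fun n => Part.some (x (n + 1))) := by
      have := Nat.Partrec.comp hc Nat.Partrec.succ
      refine this.of_eq ?_
      intro n
      simp
    obtain ⟨c, hcc⟩ := exists_code.mp hs
    have := (h2 (Encodable.encode c)).2
    apply this
    rw [Denumerable.ofNat_encode, hcc]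
    simp

open Classical in
/-- members of the class given by a choice set -/
noncomputable def member (S : Set ℕ) : ℕ → ℕ
  | 0 => 1
  | (e + 1) => if (eval (Denumerable.ofNat Code e) e).Dom then
      (if 0 ∈ eval (Denumerable.ofNat Code e) e then 1 else 0) else (if e ∈ S then 1 else 0)

theorem member_mem (S : Set ℕ) : member S ∈ paths T0 := by
  rw [mem_paths_iff]
  right
  refine ⟨rfl, ?_⟩
  intro e
  simp only [member]
  split_ifs with h1 h2 h2
  · refine ⟨by norm_num, ?_⟩
    intro h3
    have := Part.mem_unique h2 h3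
    omega
  · exact ⟨by norm_num, h2⟩
  · refine ⟨by norm_num, ?_⟩
    intro h3
    exact h1 (Part.dom_iff_mem.mpr ⟨_, h3⟩)
  · refine ⟨by norm_num, ?_⟩
    intro h3
    exact h1 (Part.dom_iff_mem.mpr ⟨_, h3⟩)

/-- infinitely many codes of nowhere defined functions -/
theorem exists_div_code : ∃ c : ℕ → Code, Function.Injective c ∧ ∀ k n, ¬ (eval (c k) n).Dom := by
  obtain ⟨c0, hc0⟩ := exists_code.mp Nat.Partrec.none
  let c : ℕ → Code := fun k => Nat.rec c0 (fun _ c => Code.comp c Code.zero) k
  refine ⟨c, ?_, ?_⟩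
  · have hlt : ∀ k, Encodable.encode (c k) < Encodable.encode (c (k + 1)) := by
      intro k
      exact (encode_lt_comp (c k) Code.zero).1
    have hm : StrictMono (fun k => Encodable.encode (c k)) := strictMono_nat_of_lt_succ hlt
    intro a b hab
    exact hm.injective (congrArg Encodable.encode hab)
  · intro k
    induction k with
    | zero =>
      intro n
      change ¬ (eval c0 n).Dom
      rw [hc0]
      simp
    | succ k ih =>
      intro n hd
      change ((eval (Code.comp (c k) Code.zero)) n).Dom at hd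
      rw [eval] at hd
      obtain ⟨h1, h2⟩ := hd
      exact ih _ h2

open Classical in
theorem member_div (S : Set ℕ) (e : ℕ) (h : ¬ (eval (Denumerable.ofNat Code e) e).Dom) :
    member S (e + 1) = if e ∈ S then 1 else 0 := by
  simp only [member]
  rw [if_neg h]

theorem infinite_T0 : (paths T0).Infinite := by
  obtain ⟨c, hinj, hdiv⟩ := exists_div_code
  refine Set.infinite_of_injective_forall_mem
    (f := fun k : ℕ => member {Encodable.encode (c k)}) ?_ (fun k => member_mem _)
  intro k l hkl
  have h := congrFun hkl (Encodable.encode (c k) + 1)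
  have hd : ¬ (eval (Denumerable.ofNat Code (Encodable.encode (c k)))
      (Encodable.encode (c k))).Dom := by
    rw [Denumerable.ofNat_encode]
    exact hdiv k _
  simp only [member_div _ _ hd, Set.mem_singleton_iff, if_true] at h
  by_contra hne
  rw [if_neg] at h
  · omega
  · intro h
    exact hne (hinj (Encodable.encode_injective h))

/-! ### The obstruction -/

theorem partrec_of_equiv {x y : ℕ → ℕ} (h : TuringEquiv x y)
    (hy : Nat.Partrec (fun n => Part.some (y n))) : Nat.Partrec (fun n => Part.some (x n)) := by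
  have h1 : RecursiveIn {fun n => Part.some (y n)} (fun n => Part.some (x n)) := h.1
  have h2 := h1.partrec_of_oracle (by
    intro g hg
    rw [Set.mem_singleton_iff.mp hg]
    exact Partrec.nat_iff.mpr hy)
  exact Partrec.nat_iff.mp h2

open Classical in
theorem code_eq {n : ℕ} (L : Fin n → ℕ → ℕ → Prop) (k : ℕ) :
    code L k = if ∃ hi : k.unpair.1 < n, L ⟨k.unpair.1, hi⟩ k.unpair.2.unpair.1 k.unpair.2.unpair.2
      then 1 else 0 := by
  unfold code
  congr 1
  apply propext
  constructor
  · rintro ⟨i, a, b, rfl, h⟩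
    simp only [Nat.unpair_pair]
    exact ⟨i.2, h⟩
  · rintro ⟨hi, h⟩
    exact ⟨⟨k.unpair.1, hi⟩, _, _, by simp, h⟩

/-- swapping two indices, on natural numbers -/
def sw (i j t : ℕ) : ℕ := if t = i then j else if t = j then i else t

theorem sw_fin {n : ℕ} (i j t : Fin n) : sw i j t = (Equiv.swap i j t : Fin n) := by
  unfold sw
  rw [Equiv.swap_apply_def]
  by_cases h1 : t = i
  · simp [h1]
  · by_cases h2 : t = j
    · subst h2
      simp [h1, Fin.val_inj]
    · simp [h1, h2, Fin.val_inj]

theorem code_swap {n : ℕ} (L : Fin n → ℕ → ℕ → Prop) (i j : Fin n) (k : ℕ) :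
    code (fun t => L (Equiv.swap i j t)) k
      = code L (Nat.pair (sw i j k.unpair.1) k.unpair.2) := by
  classical
  rw [code_eq, code_eq]
  simp only [Nat.unpair_pair]
  congr 1
  apply propext
  constructor
  · rintro ⟨hi, h⟩
    have h1 := sw_fin i j ⟨k.unpair.1, hi⟩
    simp only at h1
    have h2 : sw i j k.unpair.1 < n := by rw [h1]; exact Fin.is_lt _
    refine ⟨h2, ?_⟩
    have h3 : (⟨sw i j k.unpair.1, h2⟩ : Fin n) = Equiv.swap i j ⟨k.unpair.1, hi⟩ := Fin.ext h1
    rw [h3]
    exact h
  · rintro ⟨hi, h⟩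
    have hlt : k.unpair.1 < n := by
      by_contra hge
      have hi1 := i.2
      have hj1 := j.2
      have : sw i j k.unpair.1 = k.unpair.1 := by
        unfold sw
        rw [if_neg (by omega), if_neg (by omega)]
      rw [this] at hi
      exact hge hi
    refine ⟨hlt, ?_⟩
    have h1 := sw_fin i j ⟨k.unpair.1, hlt⟩
    simp only at h1
    have h3 : (⟨sw i j k.unpair.1, hi⟩ : Fin n) = Equiv.swap i j ⟨k.unpair.1, hlt⟩ := Fin.ext h1
    rw [← h3]
    exact h

theorem partrec_code_swap {n : ℕ} (L : Fin n → ℕ → ℕ → Prop) (i j : Fin n)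
    (h : Nat.Partrec (fun k => Part.some (code L k))) :
    Nat.Partrec (fun k => Part.some (code (fun t => L (Equiv.swap i j t)) k)) := by
  have h1 : Computable (code L) := Partrec.nat_iff.mpr h
  have hsw : Primrec (fun k : ℕ => sw i j k.unpair.1) := by
    unfold sw
    have hu : Primrec (fun k : ℕ => k.unpair.1) := Primrec.fst.comp Primrec.unpair
    exact Primrec.ite (Primrec.eq.comp hu (Primrec.const _)) (Primrec.const _)
      (Primrec.ite (Primrec.eq.comp hu (Primrec.const _)) (Primrec.const _) hu)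
  have h2 : Computable (fun k : ℕ => Nat.pair (sw i j k.unpair.1) k.unpair.2) :=
    (Primrec₂.natPair.comp hsw (Primrec.snd.comp Primrec.unpair)).to_comp
  have h3 : Computable (fun k => code (fun t => L (Equiv.swap i j t)) k) :=
    (h1.comp h2).of_eq fun k => (code_swap L i j k).symm
  exact Partrec.nat_iff.mp h3

theorem swap_mem {A : Set ℕ} {R : ℕ → ℕ → Prop} {n : ℕ} {L : Fin n → ℕ → ℕ → Prop}
    (h : L ∈ Solutions A R n) (i j : Fin n) :
    (fun t => L (Equiv.swap i j t)) ∈ Solutions A R n := by
  refine ⟨fun t => h.1 _, ?_⟩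
  intro a b
  rw [h.2 a b]
  refine and_congr_right fun _ => and_congr_right fun _ => ?_
  constructor
  · intro h1 t
    exact h1 _
  · intro h1 t
    have := h1 (Equiv.swap i j t)
    simpa using this

/-- A class with exactly one computable member and at least two members is not represented. -/
theorem not_represents {P : Set (ℕ → ℕ)} (z : ℕ → ℕ) (hz : z ∈ P)
    (hzc : Nat.Partrec (fun n => Part.some (z n)))
    (huniq : ∀ x ∈ P, Nat.Partrec (fun n => Part.some (x n)) → x = z)
    (hP : ∃ x ∈ P, x ≠ z) (A : Set ℕ) (R : ℕ → ℕ → Prop) (n : ℕ) (hn : 1 ≤ n) :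
    ¬ Represents P A R n := by
  rintro ⟨F, hF, hT⟩
  obtain ⟨s, hs⟩ := hF.2 ⟨z, hz⟩
  have hsc : Nat.Partrec (fun k => Part.some (code s.1 k)) := by
    apply partrec_of_equiv _ hzc
    have := hT s
    rw [hs] at this
    exact ⟨this.2, this.1⟩
  -- all components agree
  have hall : ∀ i j : Fin n, s.1 i = s.1 j := by
    intro i j
    let s' : Solutions A R n := ⟨fun t => s.1 (Equiv.swap i j t), swap_mem s.2 i j⟩
    have h1 : Nat.Partrec (fun k => Part.some ((F s').1 k)) :=
      partrec_of_equiv (hT s') (partrec_code_swap s.1 i j hsc)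
    have h2 : F s' = F s := by
      apply Subtype.ext
      rw [huniq _ (F s').2 h1, hs]
    have h3 : s' = s := hF.1 h2
    have h4 := congrFun (congrArg Subtype.val h3) i
    simp only [s'] at h4
    rw [Equiv.swap_apply_left] at h4
    exact h4.symm
  let i0 : Fin n := ⟨0, hn⟩
  -- R is linear
  have hR : ∀ a b, R a b ↔ s.1 i0 a b := by
    intro a b
    rw [s.2.2 a b]
    constructor
    · rintro ⟨_, _, h⟩
      exact h i0
    · intro h
      obtain ⟨ha, hb⟩ := (s.2.1 i0).1.1 a b h
      refine ⟨ha, hb, ?_⟩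
      intro i
      rw [hall i i0]
      exact h
  -- every solution equals s
  have hsol : ∀ t : Solutions A R n, t = s := by
    intro t
    apply Subtype.ext
    funext i a b
    apply propext
    have hsi : s.1 i = s.1 i0 := hall i i0
    rw [hsi]
    constructor
    · intro h
      obtain ⟨ha, hb⟩ := (t.2.1 i).1.1 a b h
      rcases (s.2.1 i0).2 a ha b hb with h1 | h1
      · exact h1
      · have h2 := ((t.2.2 b a).mp ((hR b a).mpr h1)).2.2 i
        have h3 := (t.2.1 i).1.2.2.1 a b h h2
        subst h3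
        exact h1
    · intro h
      exact ((t.2.2 a b).mp ((hR a b).mpr h)).2.2 i
  obtain ⟨x, hx, hxz⟩ := hP
  obtain ⟨t, ht⟩ := hF.2 ⟨x, hx⟩
  rw [hsol t, hs] at ht
  exact hxz (congrArg Subtype.val ht).symm

/-- There is an infinite computably bounded `Π⁰₁` class `P` which does not represent the class of
solutions of the `n`-dimensionality problem for any computable partial ordering `(A, R)` and any
`n ≥ 1`. -/
theorem result : ∃ P : Set (ℕ → ℕ), IsCBClass P ∧ P.Infinite ∧
    ∀ (A : Set ℕ) (R : ℕ → ℕ → Prop) (n : ℕ), IsComputablePO A R → 1 ≤ n →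
      ¬ Represents P A R n := by
  refine ⟨paths T0, isCBClass_T0, infinite_T0, ?_⟩
  intro A R n _ hn
  have hz : Nat.Partrec (fun n => Part.some ((fun _ => 0 : ℕ → ℕ) n)) := by
    exact Nat.Partrec.zero
  refine not_represents (fun _ => 0) zero_mem hz computable_mem ?_ A R n hn
  exact ⟨member ∅, member_mem ∅, fun h => by
    have := congrFun h 0
    simp [member] at this⟩

end Pool.Agent.Results.MP_02e4ca_lc.NotRepresentable
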