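import Mathlib
import Pool.Agent.Work.MP_02e4ca_lc.Defs
import Pool.Agent.Work.MP_02e4ca_lc.Final

set_option autoImplicit false

namespace Pool.Agent.Results.MP_02e4ca_lc.UpToPermutation

open Pool.Agent.Work.MP_02e4ca_lc.Problem

/-- Every computably bounded `Π⁰₁` class represents, up to permutation of the orderings in a
solution, the class of solutions of the 3-dimensionality problem for some computable partial
ordering. -/
theorem result (P : Set (ℕ → ℕ)) (hP : IsCBClass P) :
    ∃ (A : Set ℕ) (R : ℕ → ℕ → Prop), IsComputablePO A R ∧ RepresentsUpToPerm P A R 3 :=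
  Pool.Agent.Work.MP_02e4ca_lc.Final.representation P hP

end Pool.Agent.Results.MP_02e4ca_lc.UpToPermutation
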